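import Pool.Agent.helper92.RC.Spec

set_option autoImplicit false

namespace Pool.Agent.helper92.RC

open scoped commutatorElement Pointwise

universe u

/-- the piece given by one group `X` in the class and a homomorphism with normal image -/
def QJO_piece {G X : Type u} [Group G] [Group X] (h : Cl X) (t : X →* G) (ht : t.range.Normal) :
    Piece (fun X hX => @Cl X hX) G where
  L := PUnit
  X := fun _ => X
  gX := fun _ => inferInstance
  hX := fun _ => h
  M := ⊤
  hM := inferInstance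
  θ := t.comp ((Pi.evalMonoidHom (fun _ : PUnit.{u+1} => X) PUnit.unit).comp
    (Subgroup.subtype (⊤ : Subgroup (PUnit.{u+1} → X))))
  hθ := by
    have h1 : (t.comp ((Pi.evalMonoidHom (fun _ : PUnit.{u+1} => X) PUnit.unit).comp
        (Subgroup.subtype (⊤ : Subgroup (PUnit.{u+1} → X))))).range = t.range := by
      ext g
      constructor
      · rintro ⟨m, rfl⟩
        exact ⟨m.1 PUnit.unit, rfl⟩
      · rintro ⟨x, rfl⟩
        exact ⟨⟨fun _ => x, trivial⟩, rfl⟩
    rw [h1]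
    exact ht

theorem QJO_piece_surj {G X : Type u} [Group G] [Group X] (h : Cl X) (t : X →* G)
    (ht : t.range.Normal) (x : X) : ∃ m : (QJO_piece h t ht).M, (QJO_piece h t ht).θ m = t x :=
  ⟨⟨fun _ => x, trivial⟩, rfl⟩

theorem QJO_sup (hQ : QPI_stmt.{u}) {G : Type u} [Group G] (A B : Subgroup G) (hA : A.Normal)
    (hB : B.Normal) (cA : Cl A) (cB : Cl B) : Cl ↥(A ⊔ B) := by
  apply hQ
  intro g
  have hg : (g : G) ∈ (A : Set G) * (B : Set G) := by
    rw [← Subgroup.mul_normal A B]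
    exact g.2
  obtain ⟨a, ha, b, hb, hab⟩ := Set.mem_mul.1 hg
  have nA : (Subgroup.inclusion (le_sup_left : A ≤ A ⊔ B)).range.Normal := by
    rw [Subgroup.inclusion_range]
    exact Subgroup.normal_subgroupOf
  have nB : (Subgroup.inclusion (le_sup_right : B ≤ A ⊔ B)).range.Normal := by
    rw [Subgroup.inclusion_range]
    exact Subgroup.normal_subgroupOf
  obtain ⟨x, hx⟩ := QJO_piece_surj cA _ nA ⟨a, ha⟩
  obtain ⟨y, hy⟩ := QJO_piece_surj cB _ nB ⟨b, hb⟩
  refine ⟨_, _, x, y, ?_⟩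
  rw [hx, hy]
  exact Subtype.ext hab.symm

theorem QJO : QPI_stmt.{u} → QJO_stmt.{u} := by
  intro hQ G _ hs
  apply hQ
  intro g
  have hg : g ∈ sSup {N : Subgroup G | N.Normal ∧ Cl N} := by rw [hs]; trivial
  have hne : {N : Subgroup G | N.Normal ∧ Cl N}.Nonempty :=
    ⟨⊥, inferInstance, Cl_comm _ (fun x y => Subsingleton.elim _ _)⟩
  have hdir : DirectedOn (· ≤ ·) {N : Subgroup G | N.Normal ∧ Cl N} := by
    intro A hA B hB
    have := hA.1
    have := hB.1
    exact ⟨A ⊔ B, ⟨inferInstance, QJO_sup hQ A B hA.1 hB.1 hA.2 hB.2⟩, le_sup_left, le_sup_right⟩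
  obtain ⟨N, hN, hgN⟩ := (Subgroup.mem_sSup_of_directedOn hne hdir).1 hg
  have nN : N.subtype.range.Normal := by
    rw [Subgroup.range_subtype]
    exact hN.1
  obtain ⟨x, hx⟩ := QJO_piece_surj hN.2 N.subtype nN ⟨g, hgN⟩
  obtain ⟨y, hy⟩ := QJO_piece_surj hN.2 N.subtype nN 1
  refine ⟨_, _, x, y, ?_⟩
  rw [hx, hy]
  simp

end Pool.Agent.helper92.RC
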